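import Mathlib
import Pool.Agent.H29.FloD

namespace Pool.Agent.Results.MP_61df98_mp.Counter
open Polynomial Matrix

/-- The matrix `L_V` (rows and columns numbered `0, …, q-1`). -/
noncomputable def L {S : Type} [CommRing S] {q : ℕ} (V : Fin q → S) : Matrix (Fin q) (Fin q) S :=
  fun i j =>
    if i = j then V i
    else if (i : ℕ) + 1 = j ∨ (j : ℕ) + 1 = i ∨ ((i : ℕ) = 0 ∧ (j : ℕ) + 1 = q)
      ∨ ((i : ℕ) + 1 = q ∧ (j : ℕ) = 0) then 1
    else 0

/-- `D_V(λ) = det (L_V - λ I)` as a polynomial in `λ`. -/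
noncomputable def D {S : Type} [CommRing S] {q : ℕ} (V : Fin q → S) : S[X] :=
  ((L V).map C - Matrix.scalar (Fin q) X).det

/-- The generic antisymmetric potential `U`. -/
noncomputable def U (q : ℕ) (j : Fin q) : MvPolynomial (Fin (q / 2)) ℂ :=
  if h : (j : ℕ) < q / 2 then MvPolynomial.X ⟨j, h⟩
  else if h' : q - 1 - j < q / 2 then - MvPolynomial.X ⟨q - 1 - j, h'⟩ else 0

/-- `p'_{k+1}`. -/
noncomputable def p (q : ℕ) (k : Fin (q / 2)) : MvPolynomial (Fin (q / 2)) ℂ :=
  (-1) ^ (q + (k + 1)) * (D (U q) - D (0 : Fin q → _)).coeff (q - 2 * (k + 1))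

/-- The ideal `I'`. -/
noncomputable def I' (q : ℕ) : Ideal (MvPolynomial (Fin (q / 2)) ℂ) := Ideal.span (Set.range (p q))

/-- The multiplicity at `a`: the dimension over `ℂ` of `ℂ[u]/I'` localised at the polynomials that
do not vanish at `a`. -/
noncomputable def mult (q : ℕ) (a : Fin (q / 2) → ℂ) : Cardinal :=
  Module.rank ℂ (Localization
    (((nonZeroDivisors ℂ).comap (MvPolynomial.eval a)).map (Ideal.Quotient.mk (I' q))))

open Pool.Agent.H29.Flo

lemma D_eq {S : Type} [CommRing S] {q : ℕ} (V : Fin q → S) : D V = (-1) ^ q * (L V).charpoly := by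
  have : (L V).map C - Matrix.scalar (Fin q) X = -charmatrix (L V) := by
    simp [charmatrix]
  rw [D, this, det_neg, Matrix.charpoly, Fintype.card_fin]

lemma L_eq {q : ℕ} (V : Fin q → ℂ) : L V = floquet q V 1 := by
  ext i j
  unfold L floquet
  split_ifs <;> first | rfl | tauto | simp

lemma L_map {S T : Type} [CommRing S] [CommRing T] (f : S →+* T) {q : ℕ} (V : Fin q → S) :
    (L V).map f = L (fun i => f (V i)) := by
  ext i j
  simp only [L, map_apply]
  split_ifs <;> simp

lemma charpoly_L (q : ℕ) (hq : 3 ≤ q) (v : ℕ → MvPolynomial (Fin (q / 2)) ℂ)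
    (hv : ∀ i, Bd (wt (q / 2) 0) (0 + q / 2 + 1) (v i)) :
    (L (fun i : Fin q => v i)).charpoly = disc (fun i => X - C (v i)) q - C 2 := by
  ext1 j
  apply MvPolynomial.funext
  intro a
  set φ := MvPolynomial.eval a
  rw [← coeff_map, ← coeff_map, ← Matrix.charpoly_map, L_map, L_eq]
  have e1 := disc_map (mapRingHom φ) (fun i => X - C (v i)) q
  simp only [coe_mapRingHom, Polynomial.map_sub, map_X, map_C] at e1
  have w1 := Wz_disc (w := wt (q / 2) 0) (N := 0 + q / 2) (fun i => X - C (v i))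
    (fun i => Wz_lin (hv i)) q (by omega)
  set P : ℂ[X] := ∏ i ∈ Finset.range q, (X - C (φ (v i))) with hP
  have hPm : P.Monic := monic_prod_of_monic _ _ fun i _ => monic_X_sub_C _
  have hPd : P.natDegree = q := by
    rw [hP, natDegree_prod_of_monic _ _ fun i _ => monic_X_sub_C _]; simp
  set E := disc (fun i => (X - C (φ (v i)) : ℂ[X])) q with hE
  have hd : (E - P).degree < P.degree := by
    rw [degree_eq_natDegree hPm.ne_zero, hPd, degree_lt_iff_coeff_zero]
    intro j hj
    have := congrArg φ (w1.coeff_zero j (by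
      apply mul_lt_mul_of_pos_left
      · omega
      · have : 0 < 0 + q / 2 := by omega
        exact_mod_cast this))
    rw [← coeff_map, Polynomial.map_sub, e1, Polynomial.map_prod] at this
    simpa [hP] using this
  have hm : E.Monic := by simpa using hPm.add_of_left hd
  have hdeg : E.natDegree = q := by
    have := natDegree_add_eq_left_of_degree_lt hd
    simpa [hPd] using this
  rw [charpoly_floquet q hq _ (fun i => φ (v i)) (fun _ => rfl) E hE hm hdeg 1 one_ne_zero,
    Polynomial.map_sub, e1, map_C]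
  congr 3
  simp only [inv_one, map_ofNat]; norm_num

lemma zeta_eq (q : ℕ) (hq : 3 ≤ q) : D (U q) - D (0 : Fin q → _) = (-1) ^ q * DD q := by
  have h1 := charpoly_L q hq (av q) (av_bd q 0)
  have h2 := charpoly_L q hq (fun _ => 0) (fun i δ h => by simp at h)
  rw [D_eq, D_eq, DD]
  have e1 : U q = fun i : Fin q => av q i := rfl
  have e2 : (0 : Fin q → MvPolynomial (Fin (q / 2)) ℂ) = fun _ => 0 := rfl
  rw [e1, e2, h1, h2]; ring

section blocks
variable {S : Type} [CommRing S]

lemma tm_add (x : ℕ → S) (n k : ℕ) : tm x (n + k) = tm (fun i => x (n + i)) k * tm x n := by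
  induction k with
  | zero => simp [tm]
  | succ k ih => rw [← add_assoc, tm, ih, tm, mul_assoc]

lemma tm5 (x : ℕ → S) : tm x 5 = am (x 4) * am (x 3) * am (x 2) * am (x 1) * am (x 0) := by
  simp [tm, mul_assoc]

lemma tr3 (M N : Matrix (Fin 2) (Fin 2) S) (e : S) (he : e * e = 0) (hM : M.det = 1) :
    ((M - e • N) * M * (M + e • N)).trace = M.trace ^ 3 - 3 * M.trace := by
  rw [det_fin_two] at hM
  simp only [trace_fin_two, Matrix.mul_apply, Fin.sum_univ_two, Matrix.sub_apply, Matrix.add_apply,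
    Matrix.smul_apply, smul_eq_mul]
  linear_combination (-3 * (M 0 0 + M 1 1)) * hM - (N 0 0 * M 0 0 * N 0 0 + N 0 0 * M 0 1 * N 1 0
    + N 0 1 * M 1 0 * N 0 0 + N 0 1 * M 1 1 * N 1 0 + N 1 0 * M 0 0 * N 0 1 + N 1 0 * M 0 1 * N 1 1
    + N 1 1 * M 1 0 * N 0 1 + N 1 1 * M 1 1 * N 1 1) * he

lemma disc15 (t a b e : S) (he : e * e = 0) (x : ℕ → S)
    (h0 : x 0 = t - a) (h1 : x 1 = t - b) (h2 : x 2 = t - e) (h3 : x 3 = t + b) (h4 : x 4 = t + a)
    (h5 : x 5 = t - a) (h6 : x 6 = t - b) (h7 : x 7 = t) (h8 : x 8 = t + b) (h9 : x 9 = t + a)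
    (h10 : x 10 = t - a) (h11 : x 11 = t - b) (h12 : x 12 = t + e) (h13 : x 13 = t + b)
    (h14 : x 14 = t + a) (r1 : a ^ 2 + b ^ 2 = 0) (r2 : a ^ 4 + 2 * a * b - a ^ 2 = 0) :
    disc x 15 = (t ^ 5 - 5 * t ^ 3 + 5 * t) ^ 3 - 3 * (t ^ 5 - 5 * t ^ 3 + 5 * t) := by
  set M := am (t + a) * am (t + b) * am t * am (t - b) * am (t - a) with hM
  set N := am (t + a) * am (t + b) * !![-1, 0; 0, 0] * am (t - b) * am (t - a) with hN
  have a1 : am (t - e) = am t + e • !![-1, 0; 0, 0] := by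
    ext i j; fin_cases i <;> fin_cases j <;> simp [am, sub_eq_add_neg]
  have a2 : am (t + e) = am t - e • !![-1, 0; 0, 0] := by
    ext i j; fin_cases i <;> fin_cases j <;> simp [am]
  have hdet : M.det = 1 := by
    have : ∀ s : S, (am s).det = 1 := fun s => by simp [am, det_fin_two]
    simp only [hM, det_mul, this, mul_one]
  have htr : M.trace = t ^ 5 - 5 * t ^ 3 + 5 * t := by
    simp [hM, am, trace_fin_two]
    linear_combination (-t ^ 3 + t + a ^ 2 * t) * r1 - t * r2
  unfold disc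
  rw [show 15 = 5 + 5 + 5 from rfl, tm_add, tm_add, tm5, tm5, tm5]
  simp only [Nat.reduceAdd, h0, h1, h2, h3, h4, h5, h6, h7, h8, h9, h10, h11, h12, h13, h14, a1, a2]
  rw [← htr, ← tr3 M N e he hdet]
  congr 1
  simp only [hM, hN, mul_add, add_mul, mul_sub, sub_mul, Matrix.mul_smul, Matrix.smul_mul,
    mul_assoc]

end blocks

theorem result : ∃ q : ℕ, 3 ≤ q ∧ Odd q ∧ ∃ a : Fin (q / 2) → ℂ, a ≠ 0 ∧
    (∀ f ∈ I' q, MvPolynomial.eval a f = 0) ∧ 1 < mult q a := by
  obtain ⟨α, hα⟩ := IsAlgClosed.exists_pow_nat_eq (1 - 2 * Complex.I) (by norm_num : 0 < 2)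
  set β := Complex.I * α with hβ
  have r1 : α ^ 2 + β ^ 2 = 0 := by
    rw [hβ, mul_pow, Complex.I_sq]; ring
  have r2 : α ^ 4 + 2 * α * β - α ^ 2 = 0 := by
    rw [hβ]; linear_combination (α ^ 2) * hα
  have hα0 : α ≠ 0 := by
    rintro h
    rw [h] at hα
    have := congrArg Complex.re hα
    simp at this
  set a : Fin (15 / 2) → ℂ := ![α, β, 0, -β, -α, α, β] with ha
  set ι : ℂ →+* DualNumber ℂ := algebraMap ℂ (DualNumber ℂ) with hι
  set φ : MvPolynomial (Fin (15 / 2)) ℂ →ₐ[ℂ] DualNumber ℂ :=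
    MvPolynomial.aeval ![ι α, ι β, DualNumber.eps, -ι β, -ι α, ι α, ι β] with hφ
  have hfst : ∀ f, (φ f).fst = MvPolynomial.eval a f := by
    intro f
    have : (TrivSqZeroExt.fstHom ℂ ℂ ℂ).comp φ = MvPolynomial.aeval a := by
      ext i
      fin_cases i <;> simp [hφ, ha, hι, TrivSqZeroExt.algebraMap_eq_inl]
    have h2 := congrArg (fun g => g f) this
    simpa [MvPolynomial.aeval_eq_eval] using h2
  have hDD : (DD 15).map (φ : MvPolynomial (Fin (15 / 2)) ℂ →+* DualNumber ℂ) = 0 := by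
    have e1 := disc_map (T := (DualNumber ℂ)[X])
      (mapRingHom (φ : MvPolynomial (Fin (15 / 2)) ℂ →+* DualNumber ℂ)) (fun i => X - C (av 15 i)) 15
    have e2 := disc_map (T := (DualNumber ℂ)[X])
      (mapRingHom (φ : MvPolynomial (Fin (15 / 2)) ℂ →+* DualNumber ℂ)) (fun _ => X - C 0) 15
    simp only [coe_mapRingHom, Polynomial.map_sub, map_X, map_C] at e1 e2
    rw [DD, Polynomial.map_sub, e1, e2, sub_eq_zero]
    rw [disc15 X (C (ι α)) (C (ι β)) (C DualNumber.eps) (by rw [← map_mul]; simp),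
      disc15 X 0 0 0 (by simp)]
    all_goals first
      | (simp; done)
      | (simp [av, hφ]; done)
      | (have := congrArg (fun z => C (ι z)) r1; simpa using this)
      | (have := congrArg (fun z => C (ι z)) r2; simpa [map_ofNat] using this)
  have hI : ∀ f ∈ I' 15, φ f = 0 := by
    intro f hf
    have : I' 15 ≤ RingHom.ker (φ : MvPolynomial (Fin (15 / 2)) ℂ →+* DualNumber ℂ) := by
      rw [I', Ideal.span_le]
      rintro _ ⟨k, rfl⟩
      have := congrArg (fun r => r.coeff (15 - 2 * (k + 1))) hDD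
      simp only [coeff_map, coeff_zero] at this
      rw [SetLike.mem_coe, RingHom.mem_ker, p, zeta_eq 15 (by norm_num),
        show (-1 : (MvPolynomial (Fin (15 / 2)) ℂ)[X]) ^ 15 = C (-1) by norm_num, coeff_C_mul,
        map_mul, map_mul, this]
      simp
    exact this hf
  refine ⟨15, by norm_num, by decide, a, ?_, ?_, ?_⟩
  · intro h
    exact hα0 (congrFun h 0)
  · intro f hf
    rw [← hfst, hI f hf]; simp
  · set ψ := Ideal.Quotient.liftₐ (I' 15) φ hI with hψ
    set Sm := ((nonZeroDivisors ℂ).comap (MvPolynomial.eval a)).map (Ideal.Quotient.mk (I' 15))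
    have hu : ∀ y : Sm, IsUnit (ψ y) := by
      rintro ⟨_, f, hf, rfl⟩
      have : ψ (Ideal.Quotient.mk (I' 15) f) = φ f := rfl
      rw [this, TrivSqZeroExt.isUnit_iff_isUnit_fst, hfst, isUnit_iff_ne_zero]
      exact nonZeroDivisors.ne_zero hf
    set χ : Localization Sm →ₐ[ℂ] DualNumber ℂ := 
      IsLocalization.liftAlgHom (M := Sm) (S := Localization Sm) (f := ψ) hu with hχ
    by_contra hc
    push Not at hc
    obtain ⟨v, hv⟩ := rank_le_one_iff.1 hc
    obtain ⟨r, hr⟩ := hv 1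
    obtain ⟨s, hs⟩ := hv (algebraMap _ _ (Ideal.Quotient.mk (I' 15) (MvPolynomial.X 2)))
    have h1 := congrArg χ hr
    have h2 := congrArg χ hs
    rw [map_smul, map_one] at h1
    rw [map_smul, hχ, IsLocalization.liftAlgHom_apply, IsLocalization.liftAlgHom_apply,
      IsLocalization.lift_eq, ← IsLocalization.liftAlgHom_apply, ← hχ] at h2
    have h3 : (ψ : _ →+* DualNumber ℂ) (Ideal.Quotient.mk (I' 15) (MvPolynomial.X 2))
        = DualNumber.eps := by
      change φ (MvPolynomial.X 2) = _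
      simp [hφ]
    erw [h3] at h2
    have a1 := congrArg TrivSqZeroExt.fst h1
    have a2 := congrArg TrivSqZeroExt.fst h2
    have a3 := congrArg TrivSqZeroExt.snd h2
    simp only [TrivSqZeroExt.fst_smul, smul_eq_mul, TrivSqZeroExt.fst_one, DualNumber.fst_eps,
      TrivSqZeroExt.snd_smul, DualNumber.snd_eps] at a1 a2 a3
    have : s = 0 := by linear_combination r * a2 - s * a1
    rw [this] at a3
    simp at a3

end Pool.Agent.Results.MP_61df98_mp.Counter
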